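import Pool.Agent.helper12.TY.Spec

/-!
# TY, row YCM: combinatorics
-/

set_option autoImplicit false

namespace Pool.Agent.TY

theorem YCM : YCM_stmt := by
  intro A _ _ S
  classical
  let _ : Fintype A := Fintype.ofFinite A
  let _ : Fintype (Subgroup A) := Fintype.ofFinite (Subgroup A)
  rw [finsum_eq_sum_of_fintype, finsum_eq_sum_of_fintype]
  set n : Subgroup A → ℤ := fun W => (Nat.card {x : A × A // Subgroup.closure {x.1, x.2} = W} : ℤ) with hn
  have h0 : ∀ W, n W = ((Finset.univ : Finset (A × A)).filter
      (fun x => Subgroup.closure {x.1, x.2} = W)).card := by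
    intro W
    rw [hn]
    simp only
    rw [Nat.card_eq_fintype_card, Fintype.card_subtype]
  have h1 : ∀ U : Subgroup A, ((Nat.card U : ℕ) : ℤ) ^ 2 = ∑ W : Subgroup A, if W ≤ U then n W else 0 := by
    intro U
    have e1 : (Nat.card U) ^ 2 = ((Finset.univ : Finset (A × A)).filter
        (fun x => Subgroup.closure {x.1, x.2} ≤ U)).card := by
      have e2 : (Finset.univ : Finset (A × A)).filter (fun x => Subgroup.closure {x.1, x.2} ≤ U) =
          ((Finset.univ : Finset A).filter (fun x => x ∈ U)) ×ˢ ((Finset.univ : Finset A).filter (fun x => x ∈ U)) := by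
        ext ⟨x, y⟩
        simp only [Finset.mem_filter, Finset.mem_univ, true_and, Finset.mem_product]
        rw [Subgroup.closure_le]
        constructor
        · intro h
          exact ⟨h (by simp), h (by simp)⟩
        · rintro ⟨hx, hy⟩ z hz
          rcases hz with rfl | hz
          · exact hx
          · rw [Set.mem_singleton_iff] at hz
            rw [hz]
            exact hy
      have e3 : Nat.card U = ((Finset.univ : Finset A).filter (fun x => x ∈ U)).card := by
        rw [← Fintype.card_subtype, ← Nat.card_eq_fintype_card]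
      rw [e2, Finset.card_product, ← e3, sq]
    have e4 := Finset.card_eq_sum_card_fiberwise (f := fun x : A × A => Subgroup.closure {x.1, x.2})
      (s := (Finset.univ : Finset (A × A)).filter (fun x => Subgroup.closure {x.1, x.2} ≤ U))
      (t := Finset.univ) (fun x _ => Finset.mem_univ _)
    have e5 : ((Nat.card U : ℕ) : ℤ) ^ 2 = ∑ W : Subgroup A, ((((Finset.univ : Finset (A × A)).filter
        (fun x => Subgroup.closure {x.1, x.2} ≤ U)).filter (fun x => Subgroup.closure {x.1, x.2} = W)).card : ℤ) := by
      rw [← Nat.cast_sum, ← e4, ← e1]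
      push_cast
      rfl
    rw [e5]
    refine Finset.sum_congr rfl fun W _ => ?_
    split_ifs with hW
    · rw [h0, Finset.filter_filter]
      congr 2
      ext x
      simp only [Finset.mem_filter, Finset.mem_univ, true_and]
      constructor
      · exact fun h => h.2
      · exact fun h => ⟨h ▸ hW, h⟩
    · rw [Finset.filter_filter]
      have : (Finset.univ : Finset (A × A)).filter
          (fun x => Subgroup.closure {x.1, x.2} ≤ U ∧ Subgroup.closure {x.1, x.2} = W) = ∅ := by
        apply Finset.filter_eq_empty_iff.2
        rintro x _ ⟨h2, h3⟩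
        exact hW (h3 ▸ h2)
      rw [this]
      simp
  have h2 : ∀ U : Subgroup A, ∑ᶠ V : {V : Subgroup A // U ≤ V}, S V.1 = ∑ V : Subgroup A, if U ≤ V then S V else 0 := by
    intro U
    let _ : Fintype {V : Subgroup A // U ≤ V} := Fintype.ofFinite _
    rw [finsum_eq_sum_of_fintype, ← Finset.sum_filter]
    exact (Finset.sum_subtype ((Finset.univ : Finset (Subgroup A)).filter (fun V => U ≤ V)) (by simp) S).symm
  simp_rw [h2, h1, Finset.sum_mul, Finset.mul_sum]
  rw [Finset.sum_comm]
  refine Finset.sum_congr rfl fun W _ => Finset.sum_congr rfl fun U _ => ?_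
  split_ifs <;> simp [hn]

end Pool.Agent.TY
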