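import Pool.Agent.helper12.TY.Spec
import Pool.Agent.helper12.TZ.SpecI
import Pool.Agent.helper22.OB.SpecG

/-!
# TY, row YIC: the blocks of `E` over `B` (adapted from the row ICV of TZ)
-/

set_option autoImplicit false

namespace Pool.Agent.TY

open Pool.Agent.helper58.DC Pool.Agent.DI Pool.Agent.GR Pool.Agent.OB Pool.Agent.TZ

theorem YIC (hYUP : YUP_stmt) (hIOP : IOP_stmt) (hIOM : IOM_stmt) (hDG6 : DG6_stmt) : YIC_stmt := by
  intro p c M hS G E A _ _ _ _ _ X hpA hOp χ hχ hst D x hdef z hz hzc hzn b hb hcov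
  have hp : Fact p.Prime := ⟨hS.pr⟩
  have hA : Finite A := Finite.of_surjective _ X.proj_surjective
  have hE0 : Nat.card E ≠ 0 := Nat.card_pos.ne'
  have hxD : ∀ d ∈ D, d * x = x * d := fun d hd => (Subgroup.mem_centralizer_singleton_iff.1 (hdef.le hd))
  -- orders
  obtain ⟨k, hk⟩ : ∃ k, orderOf z = p ^ k := by
    obtain ⟨k, hk⟩ := hdef.pgrp.exists_card_eq
    have h1 : orderOf (⟨z, hz⟩ : D) ∣ p ^ k := by
      rw [← hk]
      exact orderOf_dvd_natCard _
    rw [Subgroup.orderOf_mk] at h1
    obtain ⟨j, _, hj⟩ := (Nat.dvd_prime_pow hS.pr).1 h1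
    exact ⟨j, hj⟩
  have hcop : Nat.Coprime (p ^ k) (orderOf x) :=
    Nat.Coprime.pow_left k ((Nat.Prime.coprime_iff_not_dvd hS.pr).2 hdef.reg)
  have hzx : Commute z x := hxD z hz
  -- `x` is a power of `z * x`
  obtain ⟨j, hj⟩ := exists_pow_eq_self_of_coprime hcop
  have hxpow : x = (z * x) ^ (p ^ k * j) := by
    rw [pow_mul, hzx.mul_pow, ← hk, pow_orderOf_eq_one, one_mul, hk, hj]
  have hCle : Subgroup.centralizer {z * x} ≤ Subgroup.centralizer {x} := by
    intro c hc
    rw [Subgroup.mem_centralizer_singleton_iff] at hc ⊢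
    have h1 : Commute c (z * x) := hc
    have h2 := h1.pow_right (p ^ k * j)
    rw [← hxpow] at h2
    exact h2
  have hDle : D ≤ Subgroup.centralizer {z * x} := by
    intro d hd
    rw [Subgroup.mem_centralizer_singleton_iff, ← mul_assoc, ← hzc d hd, mul_assoc, hxD d hd, mul_assoc]
  have hcardG : Nat.card D = pp p (Subgroup.centralizer ({z * x} : Set G)) := by
    have h1 : Nat.card D = pp p (Subgroup.centralizer ({x} : Set G)) := hdef.card
    have h2 : Nat.card D ∣ Nat.card (Subgroup.centralizer ({z * x} : Set G)) := Subgroup.card_dvd_of_le hDle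
    have h3 : Nat.card (Subgroup.centralizer ({z * x} : Set G)) ∣ Nat.card (Subgroup.centralizer ({x} : Set G)) :=
      Subgroup.card_dvd_of_le hCle
    rw [h1] at h2 ⊢
    unfold pp at h2 ⊢
    apply Nat.dvd_antisymm
    · apply pow_dvd_pow
      exact (padicValNat_dvd_iff_le Nat.card_pos.ne').1 h2
    · apply pow_dvd_pow
      exact padicValNat_dvd_iff_le Nat.card_pos.ne' |>.1 (pow_padicValNat_dvd.trans h3)
  -- in `E`
  set C' : Subgroup E := Subgroup.centralizer ({X.inc (z * x)} : Set E) with hC'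
  have hinf : X.inc.range ⊓ C' = (Subgroup.centralizer ({z * x} : Set G)).map X.inc := by
    ext e
    rw [Subgroup.mem_inf, Subgroup.mem_map, hC', Subgroup.mem_centralizer_singleton_iff]
    constructor
    · rintro ⟨⟨g, rfl⟩, h⟩
      refine ⟨g, ?_, rfl⟩
      rw [Subgroup.mem_centralizer_singleton_iff]
      apply X.inc_injective
      rw [map_mul X.inc g (z * x), map_mul X.inc (z * x) g]
      exact h
    · rintro ⟨g, hg, rfl⟩
      rw [Subgroup.mem_centralizer_singleton_iff] at hg
      exact ⟨⟨g, rfl⟩, by rw [← map_mul, hg, map_mul]⟩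
  have hnorm : X.inc.range.Normal := by
    constructor
    rintro _ ⟨g, rfl⟩ e
    exact ⟨X.act e g, X.act_spec e g⟩
  have hker : X.proj.ker = X.inc.range := by
    ext e
    rw [MonoidHom.mem_ker, X.exact e]
    rfl
  have hindex : X.inc.range.index = Nat.card A := by
    rw [← hker, Subgroup.index_ker]
    exact Nat.card_congr (Equiv.ofBijective (fun a : X.proj.range => (a : A))
      ⟨Subtype.val_injective, fun a => by
        obtain ⟨e, he⟩ := X.proj_surjective a
        exact ⟨⟨a, e, he⟩, rfl⟩⟩)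
  have hrel : X.inc.range.relIndex C' ∣ Nat.card A := by
    rw [← hindex]
    exact Subgroup.relIndex_dvd_index_of_normal _ _
  have hcardC : Nat.card C' = Nat.card (Subgroup.centralizer ({z * x} : Set G)) * X.inc.range.relIndex C' := by
    have h1 := Subgroup.card_mul_index (X.inc.range.subgroupOf C')
    have h2 : Nat.card (X.inc.range.subgroupOf C') = Nat.card (X.inc.range ⊓ C' : Subgroup E) :=
      Nat.card_congr (Subgroup.subgroupOfEquivOfLe (H := X.inc.range ⊓ C') (K := C') inf_le_right |>.toEquiv |>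
        fun e => (Equiv.setCongr (by rw [Subgroup.inf_subgroupOf_right])).trans e)
    have h3 : Nat.card (X.inc.range ⊓ C' : Subgroup E) = Nat.card (Subgroup.centralizer ({z * x} : Set G)) := by
      rw [hinf]
      exact (Nat.card_congr (Subgroup.equivMapOfInjective _ X.inc X.inc_injective).toEquiv).symm
    rw [← h1, h2, h3]
    rfl
  have hcardE : Nat.card (D.map X.inc) = pp p C' := by
    have h1 : Nat.card (D.map X.inc) = Nat.card D :=
      (Nat.card_congr (Subgroup.equivMapOfInjective _ X.inc X.inc_injective).toEquiv).symm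
    rw [h1, hcardG]
    unfold pp
    have h2 : ¬ p ∣ X.inc.range.relIndex C' := fun h => hpA (h.trans hrel)
    have h3 : X.inc.range.relIndex C' ≠ 0 := by
      intro h
      rw [h] at h2
      exact h2 (dvd_zero p)
    rw [hcardC, padicValNat.mul Nat.card_pos.ne' h3, padicValNat.eq_zero_of_not_dvd h2, add_zero]
  set m : ℕ := Nat.card E / p ^ (Nat.card E).factorization p with hm
  have hpm : ¬ p ∣ m := Nat.not_dvd_ordCompl hS.pr hE0
  have hmul : p ^ (Nat.card E).factorization p * m = Nat.card E := Nat.ordProj_mul_ordCompl_eq_self _ _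
  have hxm : x ^ m = 1 := by
    apply orderOf_dvd_iff_pow_eq_one.1
    have h1 : orderOf x ∣ p ^ (Nat.card E).factorization p * m := by
      rw [hmul, ← orderOf_injective X.inc X.inc_injective x]
      exact orderOf_dvd_natCard _
    refine Nat.Coprime.dvd_of_dvd_mul_left ?_ h1
    exact (Nat.Coprime.pow_left _ ((Nat.Prime.coprime_iff_not_dvd hS.pr).2 hdef.reg)).symm
  have hgm : (X.inc (z * x)) ^ m = X.inc (z ^ m) := by
    rw [← map_pow, hzx.mul_pow, hxm, mul_one]
  have homega : ¬ InM M (omega b (X.inc (z * x))) := by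
    intro h
    obtain ⟨n, hn, h1⟩ := hIOM p M hS G E A X χ hχ hst (z * x)
    have h2 : InM M (omega b (X.inc (z * x)) - omega (ext0 X.inc χ) (X.inc (z * x))) :=
      InM.of_mcong hS (hcov _ ⟨z * x, rfl⟩)
    have h3 : InM M ((n : ℂ) * omega χ (z * x)) := by
      have h4 := (h.sub hS h2).sub hS h1
      have h5 : omega b (X.inc (z * x)) - (omega b (X.inc (z * x)) - omega (ext0 X.inc χ) (X.inc (z * x))) -
          (omega (ext0 X.inc χ) (X.inc (z * x)) - n * omega χ (z * x)) = (n : ℂ) * omega χ (z * x) := by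
        ring
      rw [h5] at h4
      exact h4
    have hpn : ¬ p ∣ n := fun h => hpA (h.trans hn)
    have hnM : ¬ InM M (n : ℂ) := fun h => hpn ((InM.natCast hS n).1 h)
    have hn0 : (n : ℂ) ≠ 0 := by
      intro h0
      exact hnM (h0 ▸ InM.zero hS)
    have h6 := InM.mul_left hS (IntAt.inv hS (IntAt.natCast hS n) hnM) h3
    rw [← mul_assoc, inv_mul_cancel₀ hn0, one_mul] at h6
    exact hDG6 p M hS G χ hχ D x hdef z hz hzc h6
  refine hYUP c p m M hS E (hIOP G E A X p hpA hOp) b (X.inc (z * x)) (D.map X.inc)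
    ⟨hb, ?_, hdef.pgrp.map _, hcardE, homega, ?_, ?_, ?_⟩
  · rintro _ ⟨d, hd, rfl⟩
    have h1 := Subgroup.mem_centralizer_singleton_iff.1 (hDle hd)
    rw [Subgroup.mem_centralizer_singleton_iff, ← map_mul, h1, map_mul]
  · intro t
    refine ⟨(Nat.card E).factorization p, ?_⟩
    rw [← pow_mul, mul_comm, hmul, pow_card_eq_one']
  · rw [hgm]
    exact Subgroup.mem_map_of_mem _ (D.pow_mem hz m)
  · rw [hgm, ← map_pow, ← Subgroup.map_commutator]
    rintro ⟨w, hw, hwz⟩
    have h1 : w = (z ^ m) ^ (p ^ c) := X.inc_injective hwz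
    apply hzn
    have hcop2 : Nat.Coprime m (orderOf z) := by
      rw [hk]
      exact (Nat.Coprime.pow_left k ((Nat.Prime.coprime_iff_not_dvd hS.pr).2 hpm)).symm
    obtain ⟨n, hn⟩ := exists_pow_eq_self_of_coprime hcop2
    have h2 : z ^ (p ^ c) = w ^ n := by
      rw [h1, ← pow_mul, mul_comm (p ^ c) n, pow_mul, hn]
    rw [h2]
    exact Subgroup.pow_mem _ hw n

end Pool.Agent.TY
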